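import Pool.Agent.Helper93.FZ.St

set_option autoImplicit false

namespace Pool.Agent.Helper16.FZ

open Finset Pool.Agent.Helper93.FZ

private theorem rot3 {n : ℕ} (f : Fin n → Fin n → Fin n → ℝ) :
    ∑ c, ∑ s, ∑ r, f r c s = ∑ r, ∑ c, ∑ s, f r c s := by
  have h : ∀ c, ∑ s, ∑ r, f r c s = ∑ r, ∑ s, f r c s := fun c => Finset.sum_comm
  rw [Finset.sum_congr rfl fun c _ => h c]
  exact Finset.sum_comm

private theorem key {n : ℕ} (A B C X Y Z : Fin n → Fin n → ℝ) (a b : Fin n → ℝ) :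
    ∑ r, ∑ c, A r c * X r c * ((∑ s, B c s * C s r * (X r c + Y c s + Z s r)) + a r - b c)
      = ∑ r, ∑ c, ∑ s, A r c * X r c * (B c s * C s r * (X r c + Y c s + Z s r))
        + ∑ r, a r * ∑ c, A r c * X r c - ∑ c, b c * ∑ r, A r c * X r c := by
  have h1 : ∑ r, a r * ∑ c, A r c * X r c = ∑ r, ∑ c, A r c * X r c * a r := by
    refine Finset.sum_congr rfl fun r _ => ?_
    rw [Finset.mul_sum]
    exact Finset.sum_congr rfl fun c _ => mul_comm _ _
  have h2 : ∑ c, b c * ∑ r, A r c * X r c = ∑ r, ∑ c, A r c * X r c * b c := by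
    rw [Finset.sum_comm]
    refine Finset.sum_congr rfl fun r _ => ?_
    rw [Finset.mul_sum]
    exact Finset.sum_congr rfl fun c _ => mul_comm _ _
  rw [h1, h2, ← Finset.sum_add_distrib, ← Finset.sum_sub_distrib]
  refine Finset.sum_congr rfl fun r _ => ?_
  rw [← Finset.sum_add_distrib, ← Finset.sum_sub_distrib]
  refine Finset.sum_congr rfl fun c _ => ?_
  rw [← Finset.mul_sum]
  ring

private theorem sq0 {n : ℕ} {f : Fin n → ℝ} (h : ∑ i, f i * f i = 0) : ∀ i, f i = 0 := by
  intro i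
  have h2 := (Finset.sum_eq_zero_iff_of_nonneg (fun j _ => mul_self_nonneg (f j))).1 h i
    (Finset.mem_univ i)
  exact mul_self_eq_zero.1 h2

private theorem sq2 {n : ℕ} {A g : Fin n → Fin n → ℝ} (hA : ∀ i j, 0 < A i j)
    (h : ∑ i, ∑ j, A i j * (g i j) ^ 2 = 0) : ∀ i j, g i j = 0 := by
  intro i j
  have h1 := (Finset.sum_eq_zero_iff_of_nonneg (fun r _ =>
    Finset.sum_nonneg fun c _ => mul_nonneg (hA r c).le (sq_nonneg (g r c)))).1 h i
    (Finset.mem_univ i)
  have h2 := (Finset.sum_eq_zero_iff_of_nonneg (fun c _ =>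
    mul_nonneg (hA i c).le (sq_nonneg (g i c)))).1 h1 j (Finset.mem_univ j)
  rcases mul_eq_zero.1 h2 with h3 | h3
  · exact absurd h3 (hA i j).ne'
  · exact pow_eq_zero_iff (two_ne_zero) |>.1 h3

private theorem part2 {n : ℕ} (A B C : Fin n → Fin n → ℝ) (p e t : Fin n → ℝ)
    (hA : ∀ i j, 0 < A i j) (hB : ∀ i j, 0 < B i j) (hC : ∀ i j, 0 < C i j)
    (ha : ∀ r, ∑ c, A r c * (p r + e c) + ∑ s, C s r * (p r + t s) = 0)
    (hb : ∀ c, ∑ s, B c s * (t s - e c) - ∑ r, A r c * (p r + e c) = 0)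
    (hd : ∀ s, ∑ r, C s r * (p r + t s) + ∑ c, B c s * (t s - e c) = 0) :
    (∀ r c, p r + e c = 0) ∧ (∀ c s, t s - e c = 0) ∧ ∀ s r, p r + t s = 0 := by
  have e1 : ∑ r, p r * (∑ c, A r c * (p r + e c) + ∑ s, C s r * (p r + t s)) = 0 :=
    Finset.sum_eq_zero fun r _ => by rw [ha r, mul_zero]
  have e2 : ∑ c, e c * (∑ s, B c s * (t s - e c) - ∑ r, A r c * (p r + e c)) = 0 :=
    Finset.sum_eq_zero fun r _ => by rw [hb r, mul_zero]
  have e3 : ∑ s, t s * (∑ r, C s r * (p r + t s) + ∑ c, B c s * (t s - e c)) = 0 :=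
    Finset.sum_eq_zero fun r _ => by rw [hd r, mul_zero]
  have f1 : ∑ r, p r * (∑ c, A r c * (p r + e c) + ∑ s, C s r * (p r + t s))
      = ∑ r, ∑ c, p r * (A r c * (p r + e c)) + ∑ s, ∑ r, p r * (C s r * (p r + t s)) := by
    rw [Finset.sum_comm (f := fun s r => p r * (C s r * (p r + t s))), ← Finset.sum_add_distrib]
    refine Finset.sum_congr rfl fun r _ => ?_
    rw [mul_add, Finset.mul_sum, Finset.mul_sum]
  have f2 : ∑ c, e c * (∑ s, B c s * (t s - e c) - ∑ r, A r c * (p r + e c))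
      = ∑ c, ∑ s, e c * (B c s * (t s - e c)) - ∑ r, ∑ c, e c * (A r c * (p r + e c)) := by
    rw [Finset.sum_comm (f := fun r c => e c * (A r c * (p r + e c))), ← Finset.sum_sub_distrib]
    refine Finset.sum_congr rfl fun r _ => ?_
    rw [mul_sub, Finset.mul_sum, Finset.mul_sum]
  have f3 : ∑ s, t s * (∑ r, C s r * (p r + t s) + ∑ c, B c s * (t s - e c))
      = ∑ s, ∑ r, t s * (C s r * (p r + t s)) + ∑ c, ∑ s, t s * (B c s * (t s - e c)) := by
    rw [Finset.sum_comm (f := fun c s => t s * (B c s * (t s - e c))), ← Finset.sum_add_distrib]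
    refine Finset.sum_congr rfl fun r _ => ?_
    rw [mul_add, Finset.mul_sum, Finset.mul_sum]
  have g1 : ∑ r, ∑ c, A r c * (p r + e c) ^ 2
      = ∑ r, ∑ c, p r * (A r c * (p r + e c)) + ∑ r, ∑ c, e c * (A r c * (p r + e c)) := by
    rw [← Finset.sum_add_distrib]
    refine Finset.sum_congr rfl fun r _ => ?_
    rw [← Finset.sum_add_distrib]
    refine Finset.sum_congr rfl fun c _ => ?_
    ring
  have g2 : ∑ c, ∑ s, B c s * (t s - e c) ^ 2
      = ∑ c, ∑ s, t s * (B c s * (t s - e c)) - ∑ c, ∑ s, e c * (B c s * (t s - e c)) := by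
    rw [← Finset.sum_sub_distrib]
    refine Finset.sum_congr rfl fun r _ => ?_
    rw [← Finset.sum_sub_distrib]
    refine Finset.sum_congr rfl fun c _ => ?_
    ring
  have g3 : ∑ s, ∑ r, C s r * (p r + t s) ^ 2
      = ∑ s, ∑ r, p r * (C s r * (p r + t s)) + ∑ s, ∑ r, t s * (C s r * (p r + t s)) := by
    rw [← Finset.sum_add_distrib]
    refine Finset.sum_congr rfl fun r _ => ?_
    rw [← Finset.sum_add_distrib]
    refine Finset.sum_congr rfl fun c _ => ?_
    ring
  have n1 : 0 ≤ ∑ r, ∑ c, A r c * (p r + e c) ^ 2 := Finset.sum_nonneg fun r _ =>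
    Finset.sum_nonneg fun c _ => mul_nonneg (hA r c).le (sq_nonneg _)
  have n2 : 0 ≤ ∑ c, ∑ s, B c s * (t s - e c) ^ 2 := Finset.sum_nonneg fun r _ =>
    Finset.sum_nonneg fun c _ => mul_nonneg (hB r c).le (sq_nonneg _)
  have n3 : 0 ≤ ∑ s, ∑ r, C s r * (p r + t s) ^ 2 := Finset.sum_nonneg fun r _ =>
    Finset.sum_nonneg fun c _ => mul_nonneg (hC r c).le (sq_nonneg _)
  have z1 : ∑ r, ∑ c, A r c * (p r + e c) ^ 2 = 0 := by linarith
  have z2 : ∑ c, ∑ s, B c s * (t s - e c) ^ 2 = 0 := by linarith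
  have z3 : ∑ s, ∑ r, C s r * (p r + t s) ^ 2 = 0 := by linarith
  exact ⟨sq2 (g := fun r c => p r + e c) hA z1, sq2 (g := fun c s => t s - e c) hB z2,
    sq2 (g := fun s r => p r + t s) hC z3⟩

/-- INJ: the symmetric operator with positive weights is injective. -/
theorem hINJ : StINJ := by
  intro n A B C X Y Z hA hB hC h1 h2 h3
  set a : Fin n → ℝ := dl A C X Z with ha
  set b : Fin n → ℝ := dl B A Y X with hb
  set d : Fin n → ℝ := dl C B Z Y with hd
  have k1 := key A B C X Y Z a b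
  have k2 := key B C A Y Z X b d
  have k3 := key C A B Z X Y d a
  have z1 : ∑ r, ∑ c, A r c * X r c *
      ((∑ s, B c s * C s r * (X r c + Y c s + Z s r)) + a r - b c) = 0 :=
    Finset.sum_eq_zero fun r _ => Finset.sum_eq_zero fun c _ => by
      have := h1 r c
      rw [L1] at this
      rw [this, mul_zero]
  have z2 : ∑ c, ∑ s, B c s * Y c s *
      ((∑ r, C s r * A r c * (Y c s + Z s r + X r c)) + b c - d s) = 0 :=
    Finset.sum_eq_zero fun r _ => Finset.sum_eq_zero fun c _ => by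
      have := h2 r c
      rw [L1] at this
      rw [this, mul_zero]
  have z3 : ∑ s, ∑ r, C s r * Z s r *
      ((∑ c, A r c * B c s * (Z s r + X r c + Y c s)) + d s - a r) = 0 :=
    Finset.sum_eq_zero fun r _ => Finset.sum_eq_zero fun c _ => by
      have := h3 r c
      rw [L1] at this
      rw [this, mul_zero]
  rw [k1] at z1
  rw [k2] at z2
  rw [k3] at z3
  rw [rot3 (fun r c s => B c s * Y c s * (C s r * A r c * (Y c s + Z s r + X r c)))] at z2
  rw [rot3 (fun c s r => C s r * Z s r * (A r c * B c s * (Z s r + X r c + Y c s))),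
    rot3 (fun r c s => C s r * Z s r * (A r c * B c s * (Z s r + X r c + Y c s)))] at z3
  have sa : ∑ r, a r * a r = ∑ r, a r * ∑ c, A r c * X r c - ∑ r, a r * ∑ s, C s r * Z s r := by
    rw [← Finset.sum_sub_distrib]
    refine Finset.sum_congr rfl fun r _ => ?_
    rw [← mul_sub]
    rfl
  have sb : ∑ c, b c * b c = ∑ c, b c * ∑ s, B c s * Y c s - ∑ c, b c * ∑ r, A r c * X r c := by
    rw [← Finset.sum_sub_distrib]
    refine Finset.sum_congr rfl fun r _ => ?_
    rw [← mul_sub]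
    rfl
  have sd : ∑ s, d s * d s = ∑ s, d s * ∑ r, C s r * Z s r - ∑ s, d s * ∑ c, B c s * Y c s := by
    rw [← Finset.sum_sub_distrib]
    refine Finset.sum_congr rfl fun r _ => ?_
    rw [← mul_sub]
    rfl
  have sw : ∑ r, ∑ c, ∑ s, A r c * B c s * C s r * (X r c + Y c s + Z s r) ^ 2
      = ∑ r, ∑ c, ∑ s, A r c * X r c * (B c s * C s r * (X r c + Y c s + Z s r))
        + ∑ r, ∑ c, ∑ s, B c s * Y c s * (C s r * A r c * (Y c s + Z s r + X r c))
        + ∑ r, ∑ c, ∑ s, C s r * Z s r * (A r c * B c s * (Z s r + X r c + Y c s)) := by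
    rw [← Finset.sum_add_distrib, ← Finset.sum_add_distrib]
    refine Finset.sum_congr rfl fun r _ => ?_
    rw [← Finset.sum_add_distrib, ← Finset.sum_add_distrib]
    refine Finset.sum_congr rfl fun c _ => ?_
    rw [← Finset.sum_add_distrib, ← Finset.sum_add_distrib]
    refine Finset.sum_congr rfl fun s _ => ?_
    ring
  have na : 0 ≤ ∑ r, a r * a r := Finset.sum_nonneg fun r _ => mul_self_nonneg _
  have nb : 0 ≤ ∑ r, b r * b r := Finset.sum_nonneg fun r _ => mul_self_nonneg _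
  have nd : 0 ≤ ∑ r, d r * d r := Finset.sum_nonneg fun r _ => mul_self_nonneg _
  have nn : ∀ r c s, 0 ≤ A r c * B c s * C s r * (X r c + Y c s + Z s r) ^ 2 := fun r c s =>
    mul_nonneg (mul_nonneg (mul_nonneg (hA r c).le (hB c s).le) (hC s r).le) (sq_nonneg _)
  have nw : 0 ≤ ∑ r, ∑ c, ∑ s, A r c * B c s * C s r * (X r c + Y c s + Z s r) ^ 2 :=
    Finset.sum_nonneg fun r _ => Finset.sum_nonneg fun c _ => Finset.sum_nonneg fun s _ => nn r c s
  have tot : ∑ r, ∑ c, ∑ s, A r c * B c s * C s r * (X r c + Y c s + Z s r) ^ 2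
      + ∑ r, a r * a r + ∑ r, b r * b r + ∑ r, d r * d r = 0 := by
    rw [sa, sb, sd, sw]
    linarith
  have a0 := sq0 (f := a) (by linarith)
  have b0 := sq0 (f := b) (by linarith)
  have d0 := sq0 (f := d) (by linarith)
  have w0 : ∀ r c s, X r c + Y c s + Z s r = 0 := by
    intro r c s
    have hz : ∑ r, ∑ c, ∑ s, A r c * B c s * C s r * (X r c + Y c s + Z s r) ^ 2 = 0 := by
      linarith
    have u1 := (Finset.sum_eq_zero_iff_of_nonneg (fun r _ =>
      Finset.sum_nonneg fun c _ => Finset.sum_nonneg fun s _ => nn r c s)).1 hz r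
      (Finset.mem_univ r)
    have u2 := (Finset.sum_eq_zero_iff_of_nonneg (fun c _ =>
      Finset.sum_nonneg fun s _ => nn r c s)).1 u1 c (Finset.mem_univ c)
    have u3 := (Finset.sum_eq_zero_iff_of_nonneg (fun s _ => nn r c s)).1 u2 s (Finset.mem_univ s)
    rcases mul_eq_zero.1 u3 with u4 | u4
    · exact absurd u4 (mul_pos (mul_pos (hA r c) (hB c s)) (hC s r)).ne'
    · exact pow_eq_zero_iff (two_ne_zero) |>.1 u4
  rcases Nat.eq_zero_or_pos n with hn | hn
  · subst hn
    exact ⟨fun i => i.elim0, fun i => i.elim0, fun i => i.elim0⟩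
  · let o : Fin n := ⟨0, hn⟩
    have hX : ∀ r c, X r c = X r o + (X o c - X o o) := fun r c => by
      have q1 := w0 r c o
      have q2 := w0 r o o
      have q3 := w0 o c o
      have q4 := w0 o o o
      linarith
    have hY : ∀ c s, Y c s = Y o s - (X o c - X o o) := fun c s => by
      have q1 := w0 o c s
      have q2 := w0 o o s
      linarith
    have hZ : ∀ s r, Z s r = -(X r o + Y o s) := fun s r => by
      have q1 := w0 r o s
      linarith
    have hh := part2 A B C (fun r => X r o) (fun c => X o c - X o o) (fun s => Y o s) hA hB hC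
      (fun r => by
        have q : ∑ c, A r c * X r c - ∑ s, C s r * Z s r = 0 := a0 r
        rw [← q, sub_eq_add_neg, ← Finset.sum_neg_distrib]
        congr 1
        · exact Finset.sum_congr rfl fun c _ => by rw [hX r c]
        · exact Finset.sum_congr rfl fun s _ => by rw [hZ s r]; ring)
      (fun c => by
        have q : ∑ s, B c s * Y c s - ∑ r, A r c * X r c = 0 := b0 c
        rw [← q]
        congr 1
        · exact Finset.sum_congr rfl fun s _ => by rw [hY c s]
        · exact Finset.sum_congr rfl fun r _ => by rw [hX r c])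
      (fun s => by
        have q : ∑ r, C s r * Z s r - ∑ c, B c s * Y c s = 0 := d0 s
        have q2 : -(∑ r, C s r * Z s r - ∑ c, B c s * Y c s) = 0 := by rw [q, neg_zero]
        rw [← q2, neg_sub, sub_eq_add_neg, ← Finset.sum_neg_distrib, add_comm]
        congr 1
        · exact Finset.sum_congr rfl fun c _ => by rw [hY c s]
        · exact Finset.sum_congr rfl fun r _ => by rw [hZ s r]; ring)
    refine ⟨fun r c => ?_, fun c s => ?_, fun s r => ?_⟩
    · rw [hX r c]; exact hh.1 r c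
    · rw [hY c s]; exact hh.2.1 c s
    · rw [hZ s r]
      have := hh.2.2 s r
      rw [this, neg_zero]

end Pool.Agent.Helper16.FZ
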